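import Mathlib
import Pool.Agent.X268.Entropy

set_option autoImplicit false

/-!
# Algebraic entropy is antitone in the acting amenable group

Q1 of MP_df8e9b_al has a positive answer: `h_alg(α) ≤ h_alg(α|H)` and `ent(α) ≤ ent(α|H)` for every
subgroup `H` of the amenable group `G`. The proof shows that the limit defining `H_alg(X)` is the
infimum of `log |T_F(X)| / |F|` over all nonempty finite `F` (a Shearer type inequality for sumsets).
-/

namespace Pool.Agent.Results.MP_df8e9b_al.Monotone

open Pool.Agent.X268.Entropy

/-- **Positive answer to Q1 of MP_df8e9b_al.** -/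
theorem result {G A : Type*} [Group G] [AddCommGroup A] [DistribMulAction G A]
    (hG : Amenable G) (H : Subgroup G) : halg G A ≤ halg H A ∧ ent G A ≤ ent H A :=
  ⟨halg_le_subgroup H hG, ent_le_subgroup H hG⟩

end Pool.Agent.Results.MP_df8e9b_al.Monotone
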